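import Pool.Agent.ZRT.StmtsA

/-!
# ZRT: row XNM (Gauss lemma and Cauchy-Schwarz)
-/

noncomputable section

open scoped ContDiff Topology RealInnerProductSpace
open Set

namespace Pool.Agent.ZRT.H41

open Pool.Agent.RF Pool.Agent.MVS

/-- Cauchy-Schwarz for a positive symmetric form -/
theorem cs {V : Type*} [NormedAddCommGroup V] [NormedSpace ℝ V] (B : Bil V)
    (hs : ∀ v w, B v w = B w v) (hp : ∀ v, v ≠ 0 → 0 < B v v) (v w : V) :
    B v w ^ 2 ≤ B w w * B v v := by
  by_cases hw : w = 0
  · subst hw
    simp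
  · have hww := hp w hw
    have hnn : 0 ≤ B (B w w • v - B v w • w) (B w w • v - B v w • w) := by
      by_cases hu : B w w • v - B v w • w = 0
      · rw [hu]; simp
      · exact (hp _ hu).le
    simp only [map_sub, map_smul, ContinuousLinearMap.sub_apply, ContinuousLinearMap.smul_apply,
      smul_eq_mul] at hnn
    rw [hs w v] at hnn
    have h2 : 0 ≤ B w w * (B w w * B v v - B v w ^ 2) := by nlinarith [hnn]
    have h3 := nonneg_of_mul_nonneg_right h2 hww
    linarith

theorem xnm (_h1 : Xb1Statement) (h2 : XgaStatement) : XnmStatement := by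
  intro G ex hG hE m hm v w
  have hmem := hE.mem m hm v
  have hsym := hG.metric.symm _ hmem
  have hpos := hG.metric.pos _ hmem
  have hcs := cs (G (ex (m, v))) hsym hpos (dE ex m v v) (dE ex m v w)
  rw [h2 G ex hG hE m hm v w, h2 G ex hG hE m hm v v] at hcs
  have hww : 0 ≤ G (ex (m, v)) (dE ex m v w) (dE ex m v w) := by
    by_cases h0 : dE ex m v w = 0
    · rw [h0]
      simp
    · exact (hpos _ h0).le
  have hvv : 0 ≤ G m v v := by
    by_cases h0 : v = 0
    · rw [h0]
      simp
    · exact (hG.metric.pos m hm v h0).le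
  unfold nm
  rw [← Real.sqrt_mul hvv, ← Real.sqrt_sq_eq_abs]
  apply Real.sqrt_le_sqrt
  linarith

end Pool.Agent.ZRT.H41
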