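import Pool.Agent.ZRT.StmtsA
import Pool.Agent.Helper20_MVS.CCT
import Pool.Agent.Helper41_ZRT.XNM
import Pool.Agent.Helper9_RF.Sym

/-!
# ZRT: row XLO (lower Rauch bounds)
-/

noncomputable section

open scoped ContDiff Topology RealInnerProductSpace
open Set

namespace Pool.Agent.ZRT.H41

open Pool.Agent.RF Pool.Agent.MVS

theorem xlo (hB : Xb1Statement) (hL : XflStatement) (hF : XfbStatement) : XloStatement := by
  intro G ex hG hsec hE m hm v w hv t ht0 ht1
  obtain ⟨-, -, -, -, hspeed, -⟩ := hB G ex hG hE m hm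
  have hmem : ∀ s : ℝ, ex (m, s • v) ∈ Om (Fin 5) := fun s => hE.mem m hm (s • v)
  have hsym : ∀ s : ℝ, ∀ a b, G (ex (m, s • v)) a b = G (ex (m, s • v)) b a := fun s a b =>
    hG.metric.symm _ (hmem s) a b
  have hpos : ∀ s : ℝ, ∀ a, a ≠ 0 → 0 < G (ex (m, s • v)) a a := fun s a ha =>
    hG.metric.pos _ (hmem s) a ha
  have hnn : ∀ s : ℝ, ∀ a, 0 ≤ G (ex (m, s • v)) a a := by
    intro s a
    by_cases ha : a = 0
    · rw [ha]; simp
    · exact (hpos s a ha).le
  set α : ℝ → ℝ := fun s => G (ex (m, s • v)) (Jf ex m v w s) (Jf ex m v w s) with hα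
  set β : ℝ → ℝ := fun s => G (ex (m, s • v)) (DJf G ex m v w s) (Jf ex m v w s) with hβ
  set δ : ℝ → ℝ := fun s => G (ex (m, s • v)) (DJf G ex m v w s) (DJf G ex m v w s) with hδ
  set β' : ℝ → ℝ := fun s => G (ex (m, s • v))
    (riem G (ex (m, s • v)) (Tf ex m v s) (Jf ex m v w s) (Tf ex m v s)) (Jf ex m v w s)
      + G (ex (m, s • v)) (DJf G ex m v w s) (DJf G ex m v w s) with hβ'
  have h1 : ∀ s, HasDerivAt α (2 * β s) s := by
    intro s
    have h := (hL G ex hG hE m hm v w w s).1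
    rw [hsym s (Jf ex m v w s) (DJf G ex m v w s), ← two_mul] at h
    exact h
  have h2 : ∀ s, HasDerivAt β (β' s) s := fun s => (hL G ex hG hE m hm v w w s).2.1
  have h3 : ∀ s, 0 ≤ α s := fun s => hnn s _
  have h4 : ∀ s, β s ^ 2 ≤ α s * δ s := fun s => cs _ (hsym s) (hpos s) _ _
  have h5 : ∀ s, 0 ≤ δ s := fun s => hnn s _
  have h6 : ∀ s, δ s - α s ≤ β' s := by
    intro s
    have h := hsec (ex (m, s • v)) (hmem s) (Jf ex m v w s) (Tf ex m v s)
    rw [hspeed v s, hv, mul_one] at h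
    have h' : riem G (ex (m, s • v)) (Tf ex m v s) (Jf ex m v w s) (Tf ex m v s) =
        - riem G (ex (m, s • v)) (Jf ex m v w s) (Tf ex m v s) (Tf ex m v s) :=
      RF.H9.riem_skew _ _ _ _
    simp only [hα, hδ, hβ']
    rw [h', map_neg, ContinuousLinearMap.neg_apply]
    have h7 := sq_nonneg (G (ex (m, s • v)) (Jf ex m v w s) (Tf ex m v s))
    linarith
  have hb := hF G ex hG hE m hm v w w 0 0
  have hJ0 : Jf ex m v w 0 = 0 := hb.1
  have hD0 : DJf G ex m v w 0 = w := hb.2.1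
  have hα0 : α 0 = 0 := by
    simp only [hα]
    rw [hJ0]
    simp
  have hβ0 : β 0 = 0 := by
    simp only [hβ]
    rw [hJ0]
    simp
  have hβ'0 : β' 0 = G m w w := by
    simp only [hβ']
    rw [hJ0, hD0, zero_smul, hE.zero m hm]
    simp
  have h := MVS.H20.cct α β β' δ h1 h2 h3 h4 h5 h6 hα0 hβ0 t ht0 ht1
  rw [hβ'0] at h
  exact h

end Pool.Agent.ZRT.H41
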