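import Pool.Agent.ZRT.StmtsB

/-! ZRT, row HYP (helper41): the hyperbolic geodesic in polar coordinates. -/

set_option autoImplicit false

open Set

namespace Pool.Agent.ZRT.H41

open Pool.Agent.ZRT

theorem exp_half_pi : Real.exp (Real.pi / 2) < 4.82 := by
  have hpi : Real.pi / 2 < 1.5708 := by have := Real.pi_lt_d6; linarith
  have h1 : Real.exp 1 < 2.7182818286 := Real.exp_one_lt_d9
  have h2 : Real.exp (1 / 2) < 1.6488 := by
    have e : Real.exp (1 / 2) ^ 2 = Real.exp 1 := by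
      rw [← Real.exp_nat_mul]; norm_num
    by_contra hcon
    push Not at hcon
    have : (1.6488 : ℝ) ^ 2 ≤ Real.exp (1 / 2) ^ 2 := pow_le_pow_left₀ (by norm_num) hcon 2
    rw [e] at this
    norm_num at this
    linarith
  have h3 : Real.exp 0.0354 ≤ 1.0367 := by
    have h := Real.add_one_le_exp (-0.0354 : ℝ)
    rw [Real.exp_neg] at h
    have hp := Real.exp_pos (0.0354 : ℝ)
    have h4 : (-0.0354 + 1) * Real.exp 0.0354 ≤ 1 := by
      calc (-0.0354 + 1) * Real.exp 0.0354 ≤ (Real.exp 0.0354)⁻¹ * Real.exp 0.0354 :=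
            mul_le_mul_of_nonneg_right h hp.le
        _ = 1 := inv_mul_cancel₀ hp.ne'
    nlinarith
  have h5 : Real.exp 1.5708 = Real.exp 1 * Real.exp (1 / 2) * Real.exp 0.0354 ^ 2 := by
    rw [← Real.exp_nat_mul, ← Real.exp_add, ← Real.exp_add]; norm_num
  have h6 : Real.exp (Real.pi / 2) < Real.exp 1.5708 := Real.exp_lt_exp.2 hpi
  have h7 : Real.exp 0.0354 ^ 2 ≤ 1.0367 ^ 2 := pow_le_pow_left₀ (Real.exp_pos _).le h3 2
  have h8 : Real.exp 1 * Real.exp (1 / 2) ≤ 2.7182818286 * 1.6488 :=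
    mul_le_mul h1.le h2.le (Real.exp_pos _).le (by norm_num)
  have h9 : Real.exp 1 * Real.exp (1 / 2) * Real.exp 0.0354 ^ 2 ≤
      2.7182818286 * 1.6488 * 1.0367 ^ 2 :=
    mul_le_mul h8 h7 (by positivity) (by norm_num)
  rw [h5] at h6
  have h10 : (2.7182818286 : ℝ) * 1.6488 * 1.0367 ^ 2 < 4.82 := by norm_num
  linarith

theorem cosh_half_pi : Real.cosh (Real.pi / 2) < 2.5138 := by
  have h1 := exp_half_pi
  have h2 : 1 ≤ Real.exp (Real.pi / 2) := Real.one_le_exp (by positivity)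
  rw [Real.cosh_eq, Real.exp_neg]
  have hp : 0 < Real.exp (Real.pi / 2) := Real.exp_pos _
  set t := Real.exp (Real.pi / 2) with ht
  have h3 : t + t⁻¹ ≤ 4.82 + 1 / 4.82 := by
    have h4 : (4.82 + 1 / 4.82) * t - (t * t + 1) = (4.82 - t) * (t - 1 / 4.82) := by ring
    have h5 : 0 ≤ (4.82 - t) * (t - 1 / 4.82) := by
      apply mul_nonneg
      · linarith
      · have : (1 : ℝ) / 4.82 ≤ 1 := by norm_num
        linarith
    have h6 : t + t⁻¹ = (t * t + 1) / t := by field_simp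
    rw [h6, div_le_iff₀ hp]
    linarith
  have h7 : (4.82 + 1 / 4.82 : ℝ) / 2 < 2.5138 := by norm_num
  linarith

theorem sin_fifth {w : ℝ} (h0 : 0 < w) (h : w ≤ 2 / 5) : Real.sin (w / 2) ≤ 0.1988 := by
  have h1 : Real.sin (w / 2) ≤ Real.sin (1 / 5) := by
    apply Real.sin_le_sin_of_le_of_le_pi_div_two
    · have := Real.pi_pos; linarith
    · have := Real.pi_gt_three; linarith
    · linarith
  have h2 := Real.sin_bound (x := 1 / 5) (by rw [abs_of_pos] <;> norm_num)
  rw [abs_le] at h2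
  have h3 : |(1 / 5 : ℝ)| = 1 / 5 := abs_of_pos (by norm_num)
  rw [h3] at h2
  have := h2.2
  norm_num at this
  linarith

theorem key_lt {L w : ℝ} (hL : 0 < L) (hLpi : L < Real.pi) (hw : 0 < w) (hw2 : w ≤ 2 / 5) :
    2 * Real.cosh (L / 2) * Real.sin (w / 2) < 1 := by
  have h1 : Real.cosh (L / 2) ≤ Real.cosh (Real.pi / 2) := by
    rw [Real.cosh_le_cosh, abs_of_pos (by linarith), abs_of_pos (by positivity)]
    linarith
  have h2 := cosh_half_pi
  have h3 := sin_fifth hw hw2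
  have h4 : 0 < Real.sin (w / 2) := Real.sin_pos_of_pos_of_lt_pi (by linarith)
    (by have := Real.pi_gt_three; linarith)
  calc 2 * Real.cosh (L / 2) * Real.sin (w / 2) ≤ 2 * 2.5138 * 0.1988 :=
        mul_le_mul (by linarith) h3 h4.le (by norm_num)
    _ < 1 := by norm_num

theorem hyp : HypStatement := by
  intro L w hL hLpi hw hw2
  have hpi := Real.pi_gt_three
  have hkey := key_lt hL hLpi hw hw2
  have hsw : 0 < Real.sin (w / 2) := Real.sin_pos_of_pos_of_lt_pi (by linarith) (by linarith)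
  have hcw : 0 < Real.cos (w / 2) := Real.cos_pos_of_mem_Ioo ⟨by linarith, by linarith⟩
  have hsL : 0 < Real.sinh L := Real.sinh_pos_iff.2 hL
  have hsL2 : 0 < Real.sinh (L / 2) := Real.sinh_pos_iff.2 (by linarith)
  have hcL : 0 < Real.cosh L := Real.cosh_pos _
  obtain ⟨h, hhd⟩ : ∃ h, h = Real.arsinh (Real.sinh L * Real.sin (w / 2)) := ⟨_, rfl⟩
  have hsh : Real.sinh h = Real.sinh L * Real.sin (w / 2) := by rw [hhd, Real.sinh_arsinh]
  have hh0 : 0 < h := by
    rw [← Real.sinh_pos_iff, hsh]; positivity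
  have hhL : h < L / 2 := by
    rw [← Real.sinh_lt_sinh, hsh]
    have e : Real.sinh L = 2 * Real.sinh (L / 2) * Real.cosh (L / 2) := by
      rw [← Real.sinh_two_mul]; congr 1; ring
    rw [e]
    calc 2 * Real.sinh (L / 2) * Real.cosh (L / 2) * Real.sin (w / 2) =
        Real.sinh (L / 2) * (2 * Real.cosh (L / 2) * Real.sin (w / 2)) := by ring
      _ < Real.sinh (L / 2) * 1 := mul_lt_mul_of_pos_left hkey hsL2
      _ = Real.sinh (L / 2) := mul_one _
  have hch : 0 < Real.cosh h := Real.cosh_pos _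
  obtain ⟨C, hC⟩ : ∃ C, C = Real.cosh L / Real.cosh h := ⟨_, rfl⟩
  obtain ⟨S, hS⟩ : ∃ S, S = Real.sinh L * Real.cos (w / 2) / Real.cosh h := ⟨_, rfl⟩
  have hS0 : 0 < S := by rw [hS]; positivity
  have hC0 : 0 < C := by rw [hC]; positivity
  have hCS : C ^ 2 = S ^ 2 + 1 := by
    rw [hC, hS, div_pow, div_pow]
    have h1 := Real.cosh_sq L
    have h2 := Real.cosh_sq h
    have h3 := Real.sin_sq_add_cos_sq (w / 2)
    rw [hsh] at h2
    field_simp
    rw [h1, h2]
    nlinarith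
  have hC1 : 1 < C := by nlinarith
  have hcosh1 : ∀ x : ℝ, 1 ≤ Real.cosh x := Real.one_le_cosh
  have hu1 : ∀ x : ℝ, 1 < C * Real.cosh x := fun x => by
    have := hcosh1 x
    nlinarith
  have hv : ∀ x : ℝ, (C * Real.cosh x) ^ 2 - 1 = S ^ 2 * Real.cosh x ^ 2 + Real.sinh x ^ 2 := by
    intro x
    have h1 := Real.cosh_sq x
    rw [mul_pow, hCS]
    rw [h1]; ring
  have hv0 : ∀ x : ℝ, 0 < S ^ 2 * Real.cosh x ^ 2 + Real.sinh x ^ 2 := by
    intro x
    have := Real.cosh_pos x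
    positivity
  -- the curve
  have hx : ∀ s : ℝ, HasDerivAt (fun s : ℝ => 2 * h * (s - 1 / 2)) (2 * h) s := fun s =>
    (((hasDerivAt_id' s).sub_const (1 / 2)).const_mul (2 * h)).congr_deriv (mul_one _)
  have htan : Real.sinh h / (S * Real.cosh h) = Real.tan (w / 2) := by
    rw [Real.tan_eq_sin_div_cos, hsh, hS, div_mul_cancel₀ _ hch.ne']
    field_simp
  have hat : Real.arctan (Real.tan (w / 2)) = w / 2 :=
    Real.arctan_tan (by linarith) (by linarith)
  have hφd : ∀ s : ℝ, HasDerivAt (fun s => w / 2 + Real.arctan (Real.sinh (2 * h * (s - 1 / 2)) /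
      (S * Real.cosh (2 * h * (s - 1 / 2)))))
      (2 * h * S / (S ^ 2 * Real.cosh (2 * h * (s - 1 / 2)) ^ 2 +
        Real.sinh (2 * h * (s - 1 / 2)) ^ 2)) s := by
    intro s
    have hc := Real.cosh_pos (2 * h * (s - 1 / 2))
    have h1 := (hx s).sinh.fun_div ((hx s).cosh.const_mul S) (by positivity)
    have h2 := (h1.arctan).const_add (w / 2)
    refine h2.congr_deriv ?_
    have h3 := hv0 (2 * h * (s - 1 / 2))
    have h4 := Real.cosh_sq (2 * h * (s - 1 / 2))
    clear h1 h2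
    generalize 2 * h * (s - 1 / 2) = x at *
    have e1 : 1 + (Real.sinh x / (S * Real.cosh x)) ^ 2 =
        (S ^ 2 * Real.cosh x ^ 2 + Real.sinh x ^ 2) / (S * Real.cosh x) ^ 2 := by
      field_simp
    have e2 : Real.cosh x * (2 * h) * (S * Real.cosh x) -
        Real.sinh x * (S * (Real.sinh x * (2 * h))) = 2 * h * S := by
      have : Real.cosh x ^ 2 - Real.sinh x ^ 2 = 1 := by rw [h4]; ring
      linear_combination (2 * h * S) * this
    rw [e1, e2]
    have hq : S * Real.cosh x ≠ 0 := by positivity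
    field_simp
  have hφ0 : w / 2 + Real.arctan (Real.sinh (2 * h * (0 - 1 / 2)) /
      (S * Real.cosh (2 * h * (0 - 1 / 2)))) = 0 := by
    have e : 2 * h * (0 - 1 / 2) = -h := by ring
    rw [e, Real.cosh_neg, Real.sinh_neg, neg_div, Real.arctan_neg, htan, hat]
    ring
  have hφ1 : w / 2 + Real.arctan (Real.sinh (2 * h * (1 - 1 / 2)) /
      (S * Real.cosh (2 * h * (1 - 1 / 2)))) = w := by
    have e : 2 * h * (1 - 1 / 2) = h := by ring
    rw [e, htan, hat]
    ring
  have hmono : Monotone (fun s => w / 2 + Real.arctan (Real.sinh (2 * h * (s - 1 / 2)) /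
      (S * Real.cosh (2 * h * (s - 1 / 2))))) := by
    apply monotone_of_deriv_nonneg
    · intro s
      exact (hφd s).differentiableAt
    · intro s
      rw [(hφd s).deriv]
      have := hv0 (2 * h * (s - 1 / 2))
      positivity
  refine ⟨2 * h, by linarith, by linarith,
    fun s => Real.arcosh (C * Real.cosh (2 * h * (s - 1 / 2))),
    fun s => (√((C * Real.cosh (2 * h * (s - 1 / 2))) ^ 2 - 1))⁻¹ *
      (C * (Real.sinh (2 * h * (s - 1 / 2)) * (2 * h))),
    fun s => w / 2 + Real.arctan (Real.sinh (2 * h * (s - 1 / 2)) /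
      (S * Real.cosh (2 * h * (s - 1 / 2)))),
    fun s => 2 * h * S / (S ^ 2 * Real.cosh (2 * h * (s - 1 / 2)) ^ 2 +
      Real.sinh (2 * h * (s - 1 / 2)) ^ 2), ?_, hφd, ?_, ?_, hφ0, hφ1, ?_⟩
  · intro s
    have h1 := ((hx s).cosh).const_mul C
    have h2 := HasDerivAt.comp s (Real.hasDerivAt_arcosh
      (show C * Real.cosh (2 * h * (s - 1 / 2)) ∈ Ioi (1 : ℝ) from hu1 _)) h1
    exact h2
  · show Real.arcosh (C * Real.cosh (2 * h * (0 - 1 / 2))) = L
    have e : 2 * h * (0 - 1 / 2) = -h := by ring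
    rw [e, Real.cosh_neg, hC, div_mul_cancel₀ _ hch.ne', Real.arcosh_cosh hL.le]
  · show Real.arcosh (C * Real.cosh (2 * h * (1 - 1 / 2))) = L
    have e : 2 * h * (1 - 1 / 2) = h := by ring
    rw [e, hC, div_mul_cancel₀ _ hch.ne', Real.arcosh_cosh hL.le]
  · intro s hs
    have hux := hu1 (2 * h * (s - 1 / 2))
    refine ⟨Real.arcosh_pos hux, ?_, ?_, ?_, ?_⟩
    · show Real.arcosh (C * Real.cosh (2 * h * (s - 1 / 2))) ≤ L
      have h1 : Real.cosh (2 * h * (s - 1 / 2)) ≤ Real.cosh h := by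
        rw [Real.cosh_le_cosh, abs_of_pos hh0, abs_le]
        constructor
        · nlinarith [hs.1]
        · nlinarith [hs.2]
      have h2 : C * Real.cosh (2 * h * (s - 1 / 2)) ≤ Real.cosh L := by
        calc C * Real.cosh (2 * h * (s - 1 / 2)) ≤ C * Real.cosh h :=
              mul_le_mul_of_nonneg_left h1 hC0.le
          _ = Real.cosh L := by rw [hC, div_mul_cancel₀ _ hch.ne']
      calc Real.arcosh (C * Real.cosh (2 * h * (s - 1 / 2))) ≤ Real.arcosh (Real.cosh L) :=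
            (Real.arcosh_le_arcosh (by linarith) hcL).2 h2
        _ = L := Real.arcosh_cosh hL.le
    · have h1 := hmono hs.1
      simp only at h1
      rw [hφ0] at h1
      exact h1
    · have h1 := hmono hs.2
      simp only at h1
      rw [hφ1] at h1
      exact h1
    · show ((√((C * Real.cosh (2 * h * (s - 1 / 2))) ^ 2 - 1))⁻¹ *
        (C * (Real.sinh (2 * h * (s - 1 / 2)) * (2 * h)))) ^ 2 +
        Real.sinh (Real.arcosh (C * Real.cosh (2 * h * (s - 1 / 2)))) ^ 2 *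
        (2 * h * S / (S ^ 2 * Real.cosh (2 * h * (s - 1 / 2)) ^ 2 +
          Real.sinh (2 * h * (s - 1 / 2)) ^ 2)) ^ 2 ≤ (2 * h) ^ 2
      rw [Real.sinh_arcosh hux.le]
      have h2 := hv (2 * h * (s - 1 / 2))
      have h3 := hv0 (2 * h * (s - 1 / 2))
      have h4 := Real.cosh_sq (2 * h * (s - 1 / 2))
      clear hux
      generalize 2 * h * (s - 1 / 2) = x at *
      rw [mul_pow, inv_pow, h2, Real.sq_sqrt h3.le]
      have hV : S ^ 2 * Real.cosh x ^ 2 + Real.sinh x ^ 2 = C ^ 2 * Real.sinh x ^ 2 + S ^ 2 := by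
        rw [hCS, h4]; ring
      generalize hVV : S ^ 2 * Real.cosh x ^ 2 + Real.sinh x ^ 2 = W at *
      have e : W⁻¹ * (C * (Real.sinh x * (2 * h))) ^ 2 + W * (2 * h * S / W) ^ 2 =
          (2 * h) ^ 2 * ((C ^ 2 * Real.sinh x ^ 2 + S ^ 2) / W) := by
        field_simp
      rw [e, ← hV, div_self h3.ne', mul_one]

end Pool.Agent.ZRT.H41
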