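import Pool.Agent.ZRT.StmtsB

/-! ZRT, row STU (helper41): Sturm comparison. -/

set_option autoImplicit false

open Set

namespace Pool.Agent.ZRT.H41

open Pool.Agent.ZRT

theorem stu : StuStatement := by
  intro L a b f f' f'' hL hLpi ha hab hb hf hd hka hkb t ht
  have kd : ∀ t, HasDerivAt (fun t => Real.cos (L * (t - 1 / 2)))
      (-(L * Real.sin (L * (t - 1 / 2)))) t := by
    intro t
    have h1 : HasDerivAt (fun t : ℝ => L * (t - 1 / 2)) L t :=
      (((hasDerivAt_id' t).sub_const (1 / 2)).const_mul L).congr_deriv (mul_one L)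
    exact h1.cos.congr_deriv (by ring)
  have kd2 : ∀ t, HasDerivAt (fun t => -(L * Real.sin (L * (t - 1 / 2))))
      (-(L ^ 2 * Real.cos (L * (t - 1 / 2)))) t := by
    intro t
    have h1 : HasDerivAt (fun t : ℝ => L * (t - 1 / 2)) L t :=
      (((hasDerivAt_id' t).sub_const (1 / 2)).const_mul L).congr_deriv (mul_one L)
    exact (h1.sin.const_mul L).neg.congr_deriv (by ring)
  have kpos : ∀ t, 0 ≤ t → t ≤ 1 → 0 < Real.cos (L * (t - 1 / 2)) := by
    intro t h0 h1
    apply Real.cos_pos_of_mem_Ioo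
    constructor
    · nlinarith
    · nlinarith
  have kposI : ∀ t ∈ Icc a b, 0 < Real.cos (L * (t - 1 / 2)) := fun t ht =>
    kpos t (ha.trans ht.1) (ht.2.trans hb)
  by_contra hcon
  push Not at hcon
  have hc : ContinuousOn (fun t => f t / Real.cos (L * (t - 1 / 2))) (Icc a b) :=
    hf.div (fun x _ => (kd x).continuousAt.continuousWithinAt) fun x hx => (kposI x hx).ne'
  obtain ⟨t₀, ht₀, hmin⟩ := isCompact_Icc.exists_isMinOn (nonempty_Icc.2 hab.le) hc
  have hm : ∀ x ∈ Icc a b, f t₀ / Real.cos (L * (t₀ - 1 / 2)) ≤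
      f x / Real.cos (L * (x - 1 / 2)) := fun x hx => hmin hx
  have h1 : f t₀ / Real.cos (L * (t₀ - 1 / 2)) < 1 := by
    refine (hm t ht).trans_lt ?_
    rw [div_lt_one (kposI t ht)]
    exact hcon
  have hta : t₀ ≠ a := by
    intro h
    rw [h, div_lt_one (kposI a ⟨le_refl _, hab.le⟩)] at h1
    linarith
  have htb : t₀ ≠ b := by
    intro h
    rw [h, div_lt_one (kposI b ⟨hab.le, le_refl _⟩)] at h1
    linarith
  have hI : t₀ ∈ Ioo a b := ⟨lt_of_le_of_ne ht₀.1 (Ne.symm hta), lt_of_le_of_ne ht₀.2 htb⟩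
  -- the Wronskian
  have hW : ∀ x ∈ Ioo a b, HasDerivAt
      (fun x => f' x * Real.cos (L * (x - 1 / 2)) - f x * -(L * Real.sin (L * (x - 1 / 2))))
      (f'' x * Real.cos (L * (x - 1 / 2)) + L ^ 2 * f x * Real.cos (L * (x - 1 / 2))) x := by
    intro x hx
    obtain ⟨d1, d2, _⟩ := hd x hx
    exact ((d2.mul (kd x)).sub (d1.mul (kd2 x))).congr_deriv (by ring)
  have hanti : AntitoneOn
      (fun x => f' x * Real.cos (L * (x - 1 / 2)) - f x * -(L * Real.sin (L * (x - 1 / 2))))
      (Ioo a b) := by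
    apply antitoneOn_of_deriv_nonpos (convex_Ioo a b)
    · intro x hx
      exact (hW x hx).continuousAt.continuousWithinAt
    · intro x hx
      rw [interior_Ioo] at hx
      exact (hW x hx).differentiableAt.differentiableWithinAt
    · intro x hx
      rw [interior_Ioo] at hx
      rw [(hW x hx).deriv]
      have h2 := (hd x hx).2.2
      have h3 := kposI x (Ioo_subset_Icc_self hx)
      nlinarith
  have hq : ∀ x ∈ Ioo a b, HasDerivAt (fun t => f t / Real.cos (L * (t - 1 / 2)))
      ((f' x * Real.cos (L * (x - 1 / 2)) - f x * -(L * Real.sin (L * (x - 1 / 2)))) /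
        Real.cos (L * (x - 1 / 2)) ^ 2) x := by
    intro x hx
    exact (hd x hx).1.div (kd x) (kposI x (Ioo_subset_Icc_self hx)).ne'
  have hloc : IsLocalMin (fun t => f t / Real.cos (L * (t - 1 / 2))) t₀ :=
    hmin.isLocalMin (Icc_mem_nhds hI.1 hI.2)
  have h0 := hloc.hasDerivAt_eq_zero (hq t₀ hI)
  have hW0 : f' t₀ * Real.cos (L * (t₀ - 1 / 2)) - f t₀ * -(L * Real.sin (L * (t₀ - 1 / 2))) = 0 := by
    have h3 := kposI t₀ ht₀
    rcases div_eq_zero_iff.1 h0 with h | h
    · exact h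
    · exact absurd h (by positivity)
  have hanti2 : AntitoneOn (fun t => f t / Real.cos (L * (t - 1 / 2))) (Icc t₀ b) := by
    apply antitoneOn_of_deriv_nonpos (convex_Icc t₀ b)
    · exact hc.mono (Icc_subset_Icc ht₀.1 le_rfl)
    · intro x hx
      rw [interior_Icc] at hx
      exact (hq x ⟨hI.1.trans hx.1, hx.2⟩).differentiableAt.differentiableWithinAt
    · intro x hx
      rw [interior_Icc] at hx
      have hx' : x ∈ Ioo a b := ⟨hI.1.trans hx.1, hx.2⟩
      rw [(hq x hx').deriv]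
      apply div_nonpos_of_nonpos_of_nonneg
      · have h4 := hanti hI hx' hx.1.le
        simp only at h4
        rw [hW0] at h4
        exact h4
      · positivity
  have h5 := hanti2 ⟨le_refl _, hI.2.le⟩ ⟨hI.2.le, le_refl _⟩ hI.2.le
  simp only at h5
  have h6 : 1 ≤ f b / Real.cos (L * (b - 1 / 2)) := by
    rw [one_le_div (kposI b ⟨hab.le, le_refl _⟩)]
    exact hkb
  linarith

end Pool.Agent.ZRT.H41
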